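import Mathlib

set_option autoImplicit false

/-!
# The algebra of tangential derivatives on a minimal hypersurface of the sphere

`R` is a commutative ring (of smooth functions), `d i : R → R` the coordinates of the gradient, as a
vector of the surrounding space, `x` the position, `nu` the unit normal, `h` the second fundamental
form.  Everything here is pure algebra; the main result is the identity of Simons.
-/

namespace Pool.MP_fbfa44_gt.Idx8

open Finset

/-- the rules of the calculus; `m + 2` is the number of elements of `ι` -/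
structure Calc (ι R : Type*) [Fintype ι] [DecidableEq ι] [CommRing R] where
  /-- tangential derivatives -/
  d : ι → R →+ R
  /-- position -/
  x : ι → R
  /-- unit normal -/
  nu : ι → R
  /-- second fundamental form -/
  h : ι → ι → R
  mul : ∀ i f g, d i (f * g) = f * d i g + g * d i f
  xx : ∑ i, x i * x i = 1
  nn : ∑ i, nu i * nu i = 1
  xn : ∑ i, x i * nu i = 0
  tx : ∀ f, ∑ i, x i * d i f = 0
  tn : ∀ f, ∑ i, nu i * d i f = 0
  dx : ∀ i j, d i (x j) = (if i = j then 1 else 0) - x i * x j - nu i * nu j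
  dn : ∀ i j, d i (nu j) = - h i j
  symm : ∀ i j, h i j = h j i
  tr : ∑ i, h i i = 0
  comm : ∀ i j f, d i (d j f) - d j (d i f) =
    nu j * (∑ k, h i k * d k f) - nu i * (∑ k, h j k * d k f) - x j * d i f + x i * d j f

namespace Calc

variable {ι R : Type*} [Fintype ι] [DecidableEq ι] [CommRing R] (C : Calc ι R)

/-- the square of `h` -/
def h2 (i j : ι) : R := ∑ k, C.h i k * C.h k j

/-- the cube of `h` -/
def h3 (i j : ι) : R := ∑ k, C.h i k * C.h2 k j

/-- the square of the norm of `h` -/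
def S : R := ∑ i, ∑ j, C.h i j * C.h i j

/-- the covariant derivative of `h` -/
def T (k i j : ι) : R :=
  C.d k (C.h i j) + C.x j * C.h i k + C.x i * C.h k j - C.nu j * C.h2 i k - C.nu i * C.h2 k j

/-- the contraction of `T` with `h`, half of the gradient of `S` -/
def q (k : ι) : R := ∑ i, ∑ j, C.h i j * C.T k i j

/-- the square of the norm of `T` -/
def TT : R := ∑ k, ∑ i, ∑ j, C.T k i j * C.T k i j

/-! ### `h` kills the normal directions -/

theorem xh (j : ι) : ∑ i, C.x i * C.h i j = 0 := by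
  have h1 := C.tx (C.nu j)
  simp only [C.dn, mul_neg, sum_neg_distrib, neg_eq_zero] at h1
  exact h1

theorem nh (j : ι) : ∑ i, C.nu i * C.h i j = 0 := by
  have h1 := C.tn (C.nu j)
  simp only [C.dn, mul_neg, sum_neg_distrib, neg_eq_zero] at h1
  exact h1

theorem xh' (i : ι) : ∑ j, C.x j * C.h i j = 0 := by
  rw [← C.xh i]
  exact sum_congr rfl fun j _ => by rw [C.symm i j]

theorem nh' (i : ι) : ∑ j, C.nu j * C.h i j = 0 := by
  rw [← C.nh i]
  exact sum_congr rfl fun j _ => by rw [C.symm i j]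

theorem h2_symm (i j : ι) : C.h2 i j = C.h2 j i := by
  refine sum_congr rfl fun k _ => ?_
  rw [C.symm i k, C.symm k j, mul_comm]

theorem xh2 (j : ι) : ∑ i, C.x i * C.h2 i j = 0 := by
  simp only [h2, mul_sum]
  rw [sum_comm]
  refine sum_eq_zero fun k _ => ?_
  have h1 : ∀ i, C.x i * (C.h i k * C.h k j) = (C.x i * C.h i k) * C.h k j := fun i => by ring
  simp only [h1]
  rw [← sum_mul, C.xh, zero_mul]

theorem nh2 (j : ι) : ∑ i, C.nu i * C.h2 i j = 0 := by
  simp only [h2, mul_sum]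
  rw [sum_comm]
  refine sum_eq_zero fun k _ => ?_
  have h1 : ∀ i, C.nu i * (C.h i k * C.h k j) = (C.nu i * C.h i k) * C.h k j := fun i => by ring
  simp only [h1]
  rw [← sum_mul, C.nh, zero_mul]

theorem xh2' (i : ι) : ∑ j, C.x j * C.h2 i j = 0 := by
  rw [← C.xh2 i]
  exact sum_congr rfl fun j _ => by rw [C.h2_symm i j]

theorem nh2' (i : ι) : ∑ j, C.nu j * C.h2 i j = 0 := by
  rw [← C.nh2 i]
  exact sum_congr rfl fun j _ => by rw [C.h2_symm i j]

/-- contraction with the projection to the tangent space -/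
theorem proj (v : ι → R) (i : ι) (hx : ∑ j, C.x j * v j = 0) (hn : ∑ j, C.nu j * v j = 0) :
    ∑ j, C.d i (C.x j) * v j = v i := by
  simp only [C.dx, sub_mul, sum_sub_distrib, ite_mul, one_mul, zero_mul, sum_ite_eq, mem_univ,
    if_true, mul_assoc]
  rw [← mul_sum, ← mul_sum, hx, hn]
  ring

theorem proj' (v : ι → R) (j : ι) (hx : ∑ i, C.x i * v i = 0) (hn : ∑ i, C.nu i * v i = 0) :
    ∑ i, C.d i (C.x j) * v i = v j := by
  have h1 : ∀ i, C.d i (C.x j) = C.d j (C.x i) := by
    intro i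
    rw [C.dx, C.dx]
    simp only [eq_comm (a := i) (b := j)]
    ring
  simp only [h1]
  exact C.proj v j hx hn

/-- differentiate `∑ x j v j = 0` -/
theorem x_dv (v : ι → R) (i : ι) (hx : ∑ j, C.x j * v j = 0) (hn : ∑ j, C.nu j * v j = 0) :
    ∑ j, C.x j * C.d i (v j) = - v i := by
  have h1 : C.d i (∑ j, C.x j * v j) = 0 := by rw [hx, map_zero]
  rw [map_sum] at h1
  simp only [C.mul, sum_add_distrib] at h1
  have h2 := C.proj v i hx hn
  have h3 : ∑ j, v j * C.d i (C.x j) = ∑ j, C.d i (C.x j) * v j :=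
    sum_congr rfl fun j _ => mul_comm _ _
  rw [h3, h2] at h1
  linear_combination h1

/-- differentiate `∑ nu j v j = 0` -/
theorem n_dv (v : ι → R) (i : ι) (hn : ∑ j, C.nu j * v j = 0) :
    ∑ j, C.nu j * C.d i (v j) = ∑ j, C.h i j * v j := by
  have h1 : C.d i (∑ j, C.nu j * v j) = 0 := by rw [hn, map_zero]
  rw [map_sum] at h1
  simp only [C.mul, C.dn, sum_add_distrib, mul_neg, sum_neg_distrib] at h1
  have h3 : ∑ j, v j * C.h i j = ∑ j, C.h i j * v j := sum_congr rfl fun j _ => mul_comm _ _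
  rw [h3] at h1
  linear_combination h1

/-! ### Codazzi -/

theorem codazzi (k i j : ι) : C.d k (C.h i j) - C.d i (C.h k j) =
    C.nu i * C.h2 k j - C.nu k * C.h2 i j - C.x i * C.h k j + C.x k * C.h i j := by
  have h1 := C.comm k i (C.nu j)
  simp only [C.dn, map_neg, mul_neg, sum_neg_distrib] at h1
  simp only [h2]
  linear_combination -h1

theorem T_symm (k i j : ι) : C.T k i j = C.T k j i := by
  simp only [T]
  rw [C.symm i j, C.symm i k, C.symm k j, C.h2_symm i k, C.h2_symm k j]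
  ring

theorem T_symm' (k i j : ι) : C.T k i j = C.T i k j := by
  simp only [T]
  rw [C.symm i k, C.h2_symm i k]
  linear_combination C.codazzi k i j

theorem T_rot (k i j : ι) : C.T k i j = C.T j k i := by
  rw [C.T_symm k i j, C.T_symm' k j i]

theorem xT (k i : ι) : ∑ j, C.x j * C.T k i j = 0 := by
  have e1 := C.x_dv (fun j => C.h i j) k (C.xh' i) (C.nh' i)
  have e2 := C.xh' k
  have e3 := C.xh2' k
  have e4 : ∀ j, C.x j * C.T k i j = C.x j * C.d k (C.h i j) + C.h i k * (C.x j * C.x j) +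
      C.x i * (C.x j * C.h k j) - C.h2 i k * (C.x j * C.nu j) - C.nu i * (C.x j * C.h2 k j) := by
    intro j
    simp only [T]
    ring
  simp only [e4, sum_add_distrib, sum_sub_distrib, ← mul_sum]
  rw [e1, e2, e3, C.xx, C.xn]
  ring

theorem nT (k i : ι) : ∑ j, C.nu j * C.T k i j = 0 := by
  have e1 := C.n_dv (fun j => C.h i j) k (C.nh' i)
  have e1' : ∑ j, C.h k j * C.h i j = C.h2 i k := by
    rw [C.h2_symm i k]
    exact sum_congr rfl fun j _ => by rw [C.symm i j]
  have e2 := C.nh' k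
  have e3 := C.nh2' k
  have e5 : ∑ j, C.nu j * C.x j = 0 := by
    rw [← C.xn]
    exact sum_congr rfl fun j _ => mul_comm _ _
  have e4 : ∀ j, C.nu j * C.T k i j = C.nu j * C.d k (C.h i j) + C.h i k * (C.nu j * C.x j) +
      C.x i * (C.nu j * C.h k j) - C.h2 i k * (C.nu j * C.nu j) - C.nu i * (C.nu j * C.h2 k j) := by
    intro j
    simp only [T]
    ring
  simp only [e4, sum_add_distrib, sum_sub_distrib, ← mul_sum]
  rw [e1, e1', e2, e3, C.nn, e5]
  ring

theorem T_tr (j : ι) : ∑ k, C.T k k j = 0 := by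
  have h1 : ∀ k, C.T k k j = C.T j k k := fun k => C.T_rot k k j
  simp only [h1]
  have e4 : ∀ k, C.T j k k = C.d j (C.h k k) + C.x k * C.h k j + C.x k * C.h j k -
      C.nu k * C.h2 k j - C.nu k * C.h2 j k := fun k => by simp only [T]
  simp only [e4, sum_add_distrib, sum_sub_distrib]
  rw [C.xh, C.xh', C.nh2, C.nh2', ← map_sum, C.tr, map_zero]
  ring

theorem S_eq : C.S = ∑ i, C.h2 i i := by
  refine sum_congr rfl fun i _ => sum_congr rfl fun j _ => ?_
  rw [C.symm j i]

/-- the divergence of `h` -/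
theorem div_h (j : ι) : ∑ k, C.d k (C.h k j) = C.nu j * C.S := by
  have h1 := C.T_tr j
  have e4 : ∀ k, C.T k k j = C.d k (C.h k j) + C.x j * C.h k k + C.x k * C.h k j -
      C.nu j * C.h2 k k - C.nu k * C.h2 k j := fun k => by simp only [T]
  simp only [e4, sum_add_distrib, sum_sub_distrib, ← mul_sum] at h1
  rw [C.tr, C.xh, C.nh2, ← C.S_eq] at h1
  linear_combination h1

/-! ### The gradient of `S` -/

/-- contraction of `h` with `d k h` -/
theorem h_dh (k : ι) : ∑ i, ∑ j, C.h i j * C.d k (C.h i j) = C.q k := by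
  have e1 : ∀ i j, C.h i j * C.T k i j = C.h i j * C.d k (C.h i j) +
      C.h i k * (C.x j * C.h i j) + C.x i * (C.h i j * C.h k j) - C.h2 i k * (C.nu j * C.h i j) -
        C.nu i * (C.h i j * C.h2 k j) := by
    intro i j
    simp only [T]
    ring
  have e2 : ∀ (w v : ι → R), (∀ j, ∑ i, w i * C.h i j = 0) →
      ∑ i, ∑ j, w i * (C.h i j * v j) = 0 := by
    intro w v hw
    rw [sum_comm]
    refine sum_eq_zero fun j _ => ?_
    have : ∀ i, w i * (C.h i j * v j) = (w i * C.h i j) * v j := fun i => by ring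
    simp only [this]
    rw [← sum_mul, hw, zero_mul]
  have e3 := e2 C.x (fun j => C.h k j) C.xh
  have e4 := e2 C.nu (fun j => C.h2 k j) C.nh
  have e5 : ∑ i, ∑ j, C.h i k * (C.x j * C.h i j) = 0 := by
    refine sum_eq_zero fun i _ => ?_
    rw [← mul_sum, C.xh', mul_zero]
  have e6 : ∑ i, ∑ j, C.h2 i k * (C.nu j * C.h i j) = 0 := by
    refine sum_eq_zero fun i _ => ?_
    rw [← mul_sum, C.nh', mul_zero]
  simp only [q, e1, sum_add_distrib, sum_sub_distrib]
  rw [e3, e4, e5, e6]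
  ring

theorem dS (k : ι) : C.d k C.S = 2 * C.q k := by
  rw [← C.h_dh k]
  simp only [S, map_sum, C.mul]
  rw [mul_sum]
  refine sum_congr rfl fun i _ => ?_
  rw [mul_sum]
  exact sum_congr rfl fun j _ => by ring

/-! ### Simons -/

theorem div_x : ∑ k, C.d k (C.x k) = (Fintype.card ι : R) - 2 := by
  simp only [C.dx, if_true, sum_sub_distrib]
  rw [C.xx, C.nn, sum_const, card_univ, nsmul_eq_mul, mul_one]
  ring

theorem div_n : ∑ k, C.d k (C.nu k) = 0 := by
  simp only [C.dn, sum_neg_distrib]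
  rw [C.tr, neg_zero]

/-- contraction of `T` with `d k h` -/
theorem T_dh : ∑ k, ∑ i, ∑ j, C.T k i j * C.d k (C.h i j) = C.TT := by
  refine sum_congr rfl fun k _ => ?_
  have e1 : ∀ i j, C.T k i j * C.T k i j = C.T k i j * C.d k (C.h i j) +
      C.h i k * (C.x j * C.T k i j) + C.h k j * (C.x i * C.T k i j) -
      C.h2 i k * (C.nu j * C.T k i j) - C.h2 k j * (C.nu i * C.T k i j) := by
    intro i j
    conv_lhs => rw [show C.T k i j * C.T k i j = C.T k i j * (C.d k (C.h i j) + C.x j * C.h i k +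
      C.x i * C.h k j - C.nu j * C.h2 i k - C.nu i * C.h2 k j) from rfl]
    ring
  have e3 : ∑ i, ∑ j, C.h i k * (C.x j * C.T k i j) = 0 := by
    refine sum_eq_zero fun i _ => ?_
    rw [← mul_sum, C.xT, mul_zero]
  have e4 : ∑ i, ∑ j, C.h2 i k * (C.nu j * C.T k i j) = 0 := by
    refine sum_eq_zero fun i _ => ?_
    rw [← mul_sum, C.nT, mul_zero]
  have e5 : ∑ i, ∑ j, C.h k j * (C.x i * C.T k i j) = 0 := by
    rw [sum_comm]
    refine sum_eq_zero fun j _ => ?_
    rw [← mul_sum]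
    have : ∑ i, C.x i * C.T k i j = ∑ i, C.x i * C.T k j i :=
      sum_congr rfl fun i _ => by rw [C.T_symm k i j]
    rw [this, C.xT, mul_zero]
  have e6 : ∑ i, ∑ j, C.h2 k j * (C.nu i * C.T k i j) = 0 := by
    rw [sum_comm]
    refine sum_eq_zero fun j _ => ?_
    rw [← mul_sum]
    have : ∑ i, C.nu i * C.T k i j = ∑ i, C.nu i * C.T k j i :=
      sum_congr rfl fun i _ => by rw [C.T_symm k i j]
    rw [this, C.nT, mul_zero]
  simp only [e1, sum_add_distrib, sum_sub_distrib]
  rw [e3, e4, e5, e6]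
  ring

/-- the divergence of `T` -/
theorem div_T (i j : ι) : ∑ k, C.d k (C.T i k j) =
    ((Fintype.card ι : R) - 2) * C.h i j - C.S * C.h i j +
      C.nu j * (C.d i C.S - ∑ k, C.d k (C.h2 k i)) + C.nu i * (∑ k, ∑ l, C.h k l * C.d l (C.h k j)) -
      C.x i * (C.nu j * C.S) + C.x j * (C.nu i * C.S) := by
  have e1 : ∀ k, C.d k (C.T i k j) = C.d k (C.d i (C.h k j)) +
      (C.x j * C.d k (C.h k i) + C.h k i * C.d k (C.x j)) +
      (C.x k * C.d k (C.h i j) + C.h i j * C.d k (C.x k)) -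
      (C.nu j * C.d k (C.h2 k i) + C.h2 k i * C.d k (C.nu j)) -
      (C.nu k * C.d k (C.h2 i j) + C.h2 i j * C.d k (C.nu k)) := by
    intro k
    simp only [T, map_add, map_sub, C.mul]
  have e2 : ∀ k, C.d k (C.d i (C.h k j)) = C.d i (C.d k (C.h k j)) +
      (C.nu i * (∑ l, C.h k l * C.d l (C.h k j)) - C.nu k * (∑ l, C.h i l * C.d l (C.h k j)) -
        C.x i * C.d k (C.h k j) + C.x k * C.d i (C.h k j)) := by
    intro k
    rw [← C.comm k i (C.h k j)]
    ring
  have e3 : ∑ k, C.nu k * (∑ l, C.h i l * C.d l (C.h k j)) = C.h3 i j := by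
    simp only [mul_sum]
    rw [sum_comm]
    refine sum_congr rfl fun l _ => ?_
    have h1 : ∀ k, C.nu k * (C.h i l * C.d l (C.h k j)) = C.h i l * (C.nu k * C.d l (C.h k j)) :=
      fun k => by ring
    simp only [h1]
    rw [← mul_sum]
    have h2 := C.n_dv (fun k => C.h k j) l (C.nh j)
    rw [h2]
    rfl
  have e4 : ∑ k, C.x k * C.d i (C.h k j) = - C.h i j :=
    C.x_dv (fun k => C.h k j) i (C.xh j) (C.nh j)
  have e5 : ∑ k, C.h k i * C.d k (C.x j) = C.h i j := by
    have h1 := C.proj' (fun k => C.h k i) j (C.xh i) (C.nh i)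
    rw [C.symm i j, ← h1]
    exact sum_congr rfl fun k _ => mul_comm _ _
  have e6 : ∑ k, C.h2 k i * C.d k (C.nu j) = - C.h3 i j := by
    simp only [C.dn, mul_neg, sum_neg_distrib]
    congr 1
    have h1 : C.h3 i j = ∑ k, C.h i k * C.h2 k j := rfl
    rw [h1]
    simp only [h2, sum_mul, mul_sum]
    rw [sum_comm]
    refine sum_congr rfl fun l _ => sum_congr rfl fun k _ => ?_
    rw [C.symm l i, C.symm k l]
    ring
  have e7 : ∑ k, C.d i (C.d k (C.h k j)) = C.nu j * C.d i C.S - C.S * C.h i j := by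
    rw [← map_sum, C.div_h, C.mul, C.dn]
    ring
  simp only [e1, e2, sum_add_distrib, sum_sub_distrib, ← mul_sum]
  rw [e3, e4, e5, e6, e7, C.div_h, C.div_h, C.tx, C.tn, C.div_x, C.div_n]
  ring

/-- the identity of Simons -/
theorem div_q : ∑ k, C.d k (C.q k) = C.TT + ((Fintype.card ι : R) - 2) * C.S - C.S * C.S := by
  have e1 : ∀ k, C.d k (C.q k) = ∑ i, ∑ j, C.h i j * C.d k (C.T k i j) +
      ∑ i, ∑ j, C.T k i j * C.d k (C.h i j) := by
    intro k
    simp only [q, map_sum, C.mul, sum_add_distrib]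
  simp only [e1, sum_add_distrib]
  rw [C.T_dh]
  have e2 : ∑ k, ∑ i, ∑ j, C.h i j * C.d k (C.T k i j) =
      ∑ i, ∑ j, C.h i j * ∑ k, C.d k (C.T i k j) := by
    rw [sum_comm]
    refine sum_congr rfl fun i _ => ?_
    rw [sum_comm]
    refine sum_congr rfl fun j _ => ?_
    rw [mul_sum]
    refine sum_congr rfl fun k _ => ?_
    rw [C.T_symm' k i j]
  rw [e2]
  have hv : ∀ (w v : ι → R), (∀ j, ∑ i, w i * C.h i j = 0) →
      ∑ i, ∑ j, w i * (C.h i j * v j) = 0 := by
    intro w v hw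
    rw [sum_comm]
    refine sum_eq_zero fun j _ => ?_
    have : ∀ i, w i * (C.h i j * v j) = (w i * C.h i j) * v j := fun i => by ring
    simp only [this]
    rw [← sum_mul, hw, zero_mul]
  have hv' : ∀ (w v : ι → R), (∀ i, ∑ j, w j * C.h i j = 0) →
      ∑ i, ∑ j, v i * (w j * C.h i j) = 0 := by
    intro w v hw
    refine sum_eq_zero fun i _ => ?_
    rw [← mul_sum, hw, mul_zero]
  have e3 : ∀ i j, C.h i j * ∑ k, C.d k (C.T i k j) =
      (((Fintype.card ι : R) - 2) - C.S) * (C.h i j * C.h i j) +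
      (C.d i C.S - ∑ k, C.d k (C.h2 k i)) * (C.nu j * C.h i j) +
      C.nu i * (C.h i j * (∑ k, ∑ l, C.h k l * C.d l (C.h k j))) -
      C.x i * (C.h i j * (C.nu j * C.S)) + C.nu i * (C.h i j * (C.x j * C.S)) := by
    intro i j
    rw [C.div_T]
    ring
  simp only [e3, sum_add_distrib, sum_sub_distrib]
  rw [hv C.nu _ C.nh, hv C.x _ C.xh, hv C.nu _ C.nh, hv' C.nu _ C.nh']
  have e4 : ∑ i, ∑ j, (((Fintype.card ι : R) - 2) - C.S) * (C.h i j * C.h i j) =
      (((Fintype.card ι : R) - 2) - C.S) * C.S := by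
    simp only [← mul_sum]
    rfl
  rw [e4]
  ring

/-- the Laplacian of `S` -/
theorem simons : ∑ k, C.d k (C.d k C.S) =
    2 * (C.TT + ((Fintype.card ι : R) - 2) * C.S - C.S * C.S) := by
  have h1 : ∀ k, C.d k (C.d k C.S) = 2 * C.d k (C.q k) := by
    intro k
    rw [C.dS k, two_mul, two_mul, map_add]
  simp only [h1]
  rw [← mul_sum, C.div_q]

end Calc

end Pool.MP_fbfa44_gt.Idx8
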